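import Pool.Agent.P8H58.KM.Stm

/-!
# Project KM, package WCONJ: the weighted number of weights is invariant under conjugation
-/

set_option autoImplicit false

open scoped Classical

noncomputable section

namespace Pool.Agent.P8H37.KM

open Pool.Agent.Y63.NV
open Pool.Agent.Y63.KR (conjSub conjSub_one conjSub_mul)

section

variable {Γ : Type} [Group Γ]

theorem mem_cs (g : Γ) (P : Subgroup Γ) (x : Γ) : g * x * g⁻¹ ∈ conjSub g P ↔ x ∈ P := by
  unfold conjSub
  rw [Subgroup.mem_map]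
  constructor
  · rintro ⟨y, hy, h⟩
    have h1 : g * y * g⁻¹ = g * x * g⁻¹ := h
    have h2 : y = x := mul_left_cancel (mul_right_cancel h1)
    rwa [← h2]
  · intro h
    exact ⟨x, h, rfl⟩

/-- conjugation of subgroups -/
def csEquiv (g : Γ) : Subgroup Γ ≃ Subgroup Γ where
  toFun := conjSub g
  invFun := conjSub g⁻¹
  left_inv P := by rw [← conjSub_mul, inv_mul_cancel, conjSub_one]
  right_inv P := by rw [← conjSub_mul, mul_inv_cancel, conjSub_one]

/-- conjugation between two subgroups -/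
def cEquiv (g : Γ) (A B : Subgroup Γ) (h : ∀ x, g * x * g⁻¹ ∈ B ↔ x ∈ A) : A ≃* B where
  toFun x := ⟨g * x.1 * g⁻¹, (h _).2 x.2⟩
  invFun y := ⟨g⁻¹ * y.1 * g, by
    rw [← h]
    have : g * (g⁻¹ * y.1 * g) * g⁻¹ = y.1 := by group
    rw [this]
    exact y.2⟩
  left_inv x := Subtype.ext (by simp [mul_assoc])
  right_inv y := Subtype.ext (by simp [mul_assoc])
  map_mul' x y := Subtype.ext (by simp [mul_assoc])

theorem mem_norm (g : Γ) (Q : Subgroup Γ) (x : Γ) :
    g * x * g⁻¹ ∈ Subgroup.normalizer (conjSub g Q : Set Γ) ↔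
      x ∈ Subgroup.normalizer (Q : Set Γ) := by
  rw [Subgroup.mem_normalizer_iff, Subgroup.mem_normalizer_iff]
  constructor
  · intro h y
    have h1 := h (g * y * g⁻¹)
    have h2 : g * x * g⁻¹ * (g * y * g⁻¹) * (g * x * g⁻¹)⁻¹ = g * (x * y * x⁻¹) * g⁻¹ := by group
    rw [h2] at h1
    exact (mem_cs g Q y).symm.trans (h1.trans (mem_cs g Q _))
  · intro h y
    have h1 := h (g⁻¹ * y * g)
    have h3 : g * (g⁻¹ * y * g) * g⁻¹ = y := by group
    have h2 : g * (x * (g⁻¹ * y * g) * x⁻¹) * g⁻¹ = g * x * g⁻¹ * y * (g * x * g⁻¹)⁻¹ := by group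
    have h4 := mem_cs g Q (g⁻¹ * y * g)
    rw [h3] at h4
    have h5 := mem_cs g Q (x * (g⁻¹ * y * g) * x⁻¹)
    rw [h2] at h5
    exact h4.trans (h1.trans h5.symm)

theorem cs_le (g : Γ) (Q H : Subgroup Γ) : conjSub g Q ≤ conjSub g H ↔ Q ≤ H := by
  constructor
  · intro h x hx
    exact (mem_cs g H x).1 (h ((mem_cs g Q x).2 hx))
  · intro h
    exact Subgroup.map_mono h

theorem cs_pg (p : ℕ) (g : Γ) (Q : Subgroup Γ) : IsPGroup p (conjSub g Q) ↔ IsPGroup p Q :=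
  ⟨fun h => h.of_equiv (cEquiv g Q (conjSub g Q) (mem_cs g Q)).symm,
    fun h => h.of_equiv (cEquiv g Q (conjSub g Q) (mem_cs g Q))⟩

end

open Pool.Agent.P8H58.KM in
theorem wconj : S_WCONJ := by
  intro p F _ red Γ _ _ z c hz g H
  unfold Wsum
  rw [← finsum_comp_equiv (csEquiv g)]
  refine finsum_congr fun Q => ?_
  change (if IsPGroup p (conjSub g Q) ∧ conjSub g Q ≤ conjSub g H ∧ ⊤ ⊔ conjSub g Q = ⊤ then
    (Nat.card ↥(conjSub g H ⊓ Subgroup.normalizer (conjSub g Q : Set Γ)) : ℤ) *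
      Nw p red ((conjSub g Q).subgroupOf
        (conjSub g H ⊓ Subgroup.normalizer (conjSub g Q : Set Γ))) (fun x => z x) c else 0) = _
  have hiff : (IsPGroup p (conjSub g Q) ∧ conjSub g Q ≤ conjSub g H ∧ ⊤ ⊔ conjSub g Q = ⊤) ↔
      (IsPGroup p Q ∧ Q ≤ H ∧ ⊤ ⊔ Q = ⊤) := by
    rw [cs_pg, cs_le, top_sup_eq, top_sup_eq]
  have hmem : ∀ x, g * x * g⁻¹ ∈ conjSub g H ⊓ Subgroup.normalizer (conjSub g Q : Set Γ) ↔
      x ∈ H ⊓ Subgroup.normalizer (Q : Set Γ) := by
    intro x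
    rw [Subgroup.mem_inf, Subgroup.mem_inf, mem_cs, mem_norm]
  have h1 : Nat.card ↥(conjSub g H ⊓ Subgroup.normalizer (conjSub g Q : Set Γ)) =
      Nat.card ↥(H ⊓ Subgroup.normalizer (Q : Set Γ)) :=
    Nat.card_congr (cEquiv g _ _ hmem).symm.toEquiv
  have h2 : Nw p red ((conjSub g Q).subgroupOf
        (conjSub g H ⊓ Subgroup.normalizer (conjSub g Q : Set Γ))) (fun x => z x) c =
      Nw p red (Q.subgroupOf (H ⊓ Subgroup.normalizer (Q : Set Γ))) (fun x => z x) c := by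
    symm
    refine Pool.Agent.Y624.NV.nw_congr p red (cEquiv g _ _ hmem)
      (Q := Q.subgroupOf (H ⊓ Subgroup.normalizer (Q : Set Γ)))
      (Q' := (conjSub g Q).subgroupOf
        (conjSub g H ⊓ Subgroup.normalizer (conjSub g Q : Set Γ)))
      (f := fun x => z x.1) (f' := fun x => z x.1) (fun x => ?_) (fun x => ?_) ?_ c
    · rw [Subgroup.mem_subgroupOf, Subgroup.mem_subgroupOf]
      exact mem_cs g Q x.1
    · exact (hz g x.1).symm
    · intro a x
      exact hz a.1 x.1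
  rw [if_congr hiff rfl rfl, h1, h2]

end Pool.Agent.P8H37.KM
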